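import Mathlib

namespace Pool.Agent.Results.MP_763eff_nt.LcmBinom

open Finset

/-- The Lucas sequence `U(P,Q)`: `U_0 = 0`, `U_1 = 1`, `U_{n+2} = P U_{n+1} - Q U_n`. -/
def U (P Q : ℤ) : ℕ → ℤ
  | 0 => 0
  | 1 => 1
  | n + 2 => P * U P Q (n + 1) - Q * U P Q n

/-- The `U`-binomial coefficient `U_n U_{n-1} ... U_{n-k+1} / (U_1 U_2 ... U_k)`. -/
def binom (P Q : ℤ) (n k : ℕ) : ℚ :=
  (∏ i ∈ range k, (U P Q (n - i) : ℚ)) / ∏ i ∈ range k, (U P Q (i + 1) : ℚ)

/-- Its lcm-analogue `lcm(U_n, ..., U_{n-k+1}) / lcm(U_1, ..., U_k)` (positive lcm's). -/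
def lcmBinom (P Q : ℤ) (n k : ℕ) : ℚ :=
  (((range k).lcm fun i => (U P Q (n - i)).natAbs : ℕ) : ℚ) /
    (((range k).lcm fun i => (U P Q (i + 1)).natAbs : ℕ) : ℚ)

section basics

variable {P Q : ℤ}

theorem U_add (m n : ℕ) : U P Q (m + n + 1) =
    U P Q (m + 1) * U P Q (n + 1) - Q * U P Q m * U P Q n := by
  induction n using Nat.strong_induction_on with
  | _ n ih =>
    match n with
    | 0 => simp [U]
    | 1 => simp [U]; ring
    | n + 2 =>
      have h1 := ih (n + 1) (by omega)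
      have h0 := ih n (by omega)
      have e1 : U P Q (m + (n + 2) + 1) = P * U P Q (m + (n + 1) + 1) - Q * U P Q (m + n + 1) := by
        have : m + (n + 2) + 1 = (m + n + 1) + 2 := by ring
        rw [this, U]; rfl
      have e2 : U P Q (n + 2 + 1) = P * U P Q (n + 1 + 1) - Q * U P Q (n + 1) := by
        rw [show n + 2 + 1 = (n + 1) + 2 by ring, U]
      have e3 : U P Q (n + 2) = P * U P Q (n + 1) - Q * U P Q n := by rw [U]
      rw [e1, h1, h0, e2, e3]; ring

theorem U_coprime_Q (h : IsCoprime P Q) (n : ℕ) : IsCoprime (U P Q (n + 1)) Q := by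
  induction n with
  | zero => simpa [U] using isCoprime_one_left
  | succ n ih =>
    have e : U P Q (n + 1 + 1) = P * U P Q (n + 1) + Q * (-(U P Q n)) := by rw [U]; ring
    rw [e]
    exact IsCoprime.add_mul_left_left (h.mul_left ih) _

theorem U_coprime_succ (h : IsCoprime P Q) (n : ℕ) : IsCoprime (U P Q (n + 1)) (U P Q n) := by
  induction n with
  | zero => simpa [U] using isCoprime_one_left
  | succ n ih =>
    have e : U P Q (n + 1 + 1) = (-Q) * U P Q n + U P Q (n + 1) * P := by rw [U]; ring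
    rw [e]
    apply IsCoprime.add_mul_left_left
    apply IsCoprime.mul_left
    · exact (U_coprime_Q h n).symm.neg_left
    · exact ih.symm

theorem dvd_U_add_iff (h : IsCoprime P Q) {d : ℤ} {m : ℕ} (hd : d ∣ U P Q m) (n : ℕ) :
    d ∣ U P Q (m + n) ↔ d ∣ U P Q n := by
  cases n with
  | zero => simp [hd, U]
  | succ n =>
    rw [← add_assoc, U_add]
    have h1 : d ∣ Q * U P Q m * U P Q n := (hd.mul_left Q).mul_right _
    rw [dvd_sub_left h1]
    have hc : IsCoprime d (U P Q (m + 1)) :=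
      ((U_coprime_succ h m).of_isCoprime_of_dvd_right hd).symm
    exact ⟨fun h => hc.dvd_of_dvd_mul_left h, fun h => h.mul_left _⟩

theorem dvd_U_mul_add_iff (h : IsCoprime P Q) {d : ℤ} {m : ℕ} (hd : d ∣ U P Q m) (t n : ℕ) :
    d ∣ U P Q (m * t + n) ↔ d ∣ U P Q n := by
  induction t with
  | zero => simp
  | succ t ih =>
    rw [show m * (t + 1) + n = m + (m * t + n) by ring, dvd_U_add_iff h hd, ih]

/-- `r` is the rank (of apparition) of `d`. -/
def IsRank (P Q : ℤ) (d r : ℕ) : Prop := 0 < r ∧ ∀ j, (d : ℤ) ∣ U P Q j ↔ r ∣ j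

theorem exists_rank (h : IsCoprime P Q) {d m : ℕ} (hm : 0 < m) (hd : (d : ℤ) ∣ U P Q m) :
    ∃ r, IsRank P Q d r := by
  classical
  have hex : ∃ r, 0 < r ∧ (d : ℤ) ∣ U P Q r := ⟨m, hm, hd⟩
  refine ⟨Nat.find hex, (Nat.find_spec hex).1, fun j => ?_⟩
  have hr := Nat.find_spec hex
  set r := Nat.find hex with hrdef
  have hj : r * (j / r) + j % r = j := Nat.div_add_mod j r
  constructor
  · intro hdj
    rw [← hj, dvd_U_mul_add_iff h hr.2] at hdj
    have hlt : j % r < r := Nat.mod_lt _ hr.1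
    by_contra hnd
    have hpos : 0 < j % r := Nat.pos_of_ne_zero (fun h0 => hnd (Nat.dvd_of_mod_eq_zero h0))
    exact Nat.find_min hex hlt ⟨hpos, hdj⟩
  · rintro ⟨t, rfl⟩
    have := (dvd_U_mul_add_iff h hr.2 t 0).2 (by simp [U])
    simpa using this

theorem IsRank.unique {d r s : ℕ} (hr : IsRank P Q d r) (hs : IsRank P Q d s) : r = s :=
  Nat.dvd_antisymm ((hr.2 s).1 ((hs.2 s).2 dvd_rfl)) ((hs.2 r).1 ((hr.2 r).2 dvd_rfl))

end basics

section counting

variable {P Q : ℤ}

/-- number of elements `j` of `S` with `d ∣ U_j`. -/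
def cnt (P Q : ℤ) (S : Finset ℕ) (d : ℕ) : ℕ := #{j ∈ S | d ∣ (U P Q j).natAbs}

theorem fac_eq_card {m p B : ℕ} (hp : p.Prime) (hm : m ≠ 0) (hB : m.factorization p ≤ B) :
    m.factorization p = #{i ∈ Icc 1 B | p ^ i ∣ m} := by
  have : ({i ∈ Icc 1 B | p ^ i ∣ m} : Finset ℕ) = Icc 1 (m.factorization p) := by
    ext i
    simp only [mem_filter, mem_Icc, hp.pow_dvd_iff_le_factorization hm]
    omega
  rw [this, Nat.card_Icc]; omega

theorem fac_prod {S : Finset ℕ} {p B : ℕ} (hp : p.Prime)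
    (hS : ∀ j ∈ S, U P Q j ≠ 0) (hB : ∀ j ∈ S, (U P Q j).natAbs.factorization p ≤ B) :
    (∏ j ∈ S, (U P Q j).natAbs).factorization p = ∑ i ∈ Icc 1 B, cnt P Q S (p ^ i) := by
  rw [Nat.factorization_prod (fun j hj => Int.natAbs_ne_zero.2 (hS j hj))]
  rw [Finsupp.finsetSum_apply]
  rw [Finset.sum_congr rfl (fun j hj => fac_eq_card hp (Int.natAbs_ne_zero.2 (hS j hj)) (hB j hj))]
  simp only [cnt, card_filter]
  rw [Finset.sum_comm]

theorem fac_lcm {S : Finset ℕ} {p B : ℕ} (hp : p.Prime)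
    (hS : ∀ j ∈ S, U P Q j ≠ 0) (hB : ∀ j ∈ S, (U P Q j).natAbs.factorization p ≤ B) :
    (S.lcm fun j => (U P Q j).natAbs).factorization p =
      ∑ i ∈ Icc 1 B, if 1 ≤ cnt P Q S (p ^ i) then 1 else 0 := by
  rw [Finset.factorization_lcm (fun j hj => Int.natAbs_ne_zero.2 (hS j hj))]
  rw [← card_filter]
  have : ({i ∈ Icc 1 B | 1 ≤ cnt P Q S (p ^ i)} : Finset ℕ) =
      Icc 1 (S.sup fun j => (U P Q j).natAbs.factorization p) := by
    ext i
    simp only [mem_filter, mem_Icc, cnt, Nat.one_le_iff_ne_zero, card_ne_zero,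
      filter_nonempty_iff]
    constructor
    · rintro ⟨⟨h1, h2⟩, j, hj, hd⟩
      refine ⟨h1, ?_⟩
      rw [hp.pow_dvd_iff_le_factorization (Int.natAbs_ne_zero.2 (hS j hj))] at hd
      exact hd.trans (Finset.le_sup (f := fun j => (U P Q j).natAbs.factorization p) hj)
    · rintro ⟨h1, h2⟩
      rw [Finset.le_sup_iff (by simpa using Nat.pos_of_ne_zero h1)] at h2
      obtain ⟨j, hj, hle⟩ := h2
      refine ⟨⟨h1, hle.trans (hB j hj)⟩, j, hj, ?_⟩
      rwa [hp.pow_dvd_iff_le_factorization (Int.natAbs_ne_zero.2 (hS j hj))]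
  rw [this, Nat.card_Icc]; omega

theorem key {W K : Finset ℕ} (hW : ∀ j ∈ W, U P Q j ≠ 0) (hK : ∀ j ∈ K, U P Q j ≠ 0)
    (hle : ∀ d, cnt P Q K d ≤ cnt P Q W d) :
    (∏ j ∈ W, (U P Q j).natAbs) * (K.lcm fun j => (U P Q j).natAbs) =
      (∏ j ∈ K, (U P Q j).natAbs) * (W.lcm fun j => (U P Q j).natAbs) ↔
    ∀ p, p.Prime → ∀ i, 1 ≤ i →
      cnt P Q K (p ^ i) + (if 1 ≤ cnt P Q W (p ^ i) then 1 else 0) =
      cnt P Q W (p ^ i) + (if 1 ≤ cnt P Q K (p ^ i) then 1 else 0) := by
  have hWp : (∏ j ∈ W, (U P Q j).natAbs) ≠ 0 :=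
    Finset.prod_ne_zero_iff.2 fun j hj => Int.natAbs_ne_zero.2 (hW j hj)
  have hKp : (∏ j ∈ K, (U P Q j).natAbs) ≠ 0 :=
    Finset.prod_ne_zero_iff.2 fun j hj => Int.natAbs_ne_zero.2 (hK j hj)
  have hWl : (W.lcm fun j => (U P Q j).natAbs) ≠ 0 := by
    rw [Ne, Finset.lcm_eq_zero_iff]; simpa using hW
  have hKl : (K.lcm fun j => (U P Q j).natAbs) ≠ 0 := by
    rw [Ne, Finset.lcm_eq_zero_iff]; simpa using hK
  -- termwise inequality
  have hterm : ∀ d, cnt P Q K d + (if 1 ≤ cnt P Q W d then 1 else 0) ≤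
      cnt P Q W d + (if 1 ≤ cnt P Q K d then 1 else 0) := by
    intro d
    have := hle d
    split_ifs <;> omega
  -- factorization computation
  have hfac : ∀ p, p.Prime → ∀ B, (∀ j ∈ W, (U P Q j).natAbs.factorization p ≤ B) →
      (∀ j ∈ K, (U P Q j).natAbs.factorization p ≤ B) →
      (((∏ j ∈ W, (U P Q j).natAbs) * (K.lcm fun j => (U P Q j).natAbs)).factorization p =
        ∑ i ∈ Icc 1 B, (cnt P Q W (p ^ i) + (if 1 ≤ cnt P Q K (p ^ i) then 1 else 0))) ∧
      (((∏ j ∈ K, (U P Q j).natAbs) * (W.lcm fun j => (U P Q j).natAbs)).factorization p =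
        ∑ i ∈ Icc 1 B, (cnt P Q K (p ^ i) + (if 1 ≤ cnt P Q W (p ^ i) then 1 else 0))) := by
    intro p hp B hBW hBK
    rw [Nat.factorization_mul hWp hKl, Nat.factorization_mul hKp hWl, Finsupp.add_apply,
      Finsupp.add_apply, fac_prod hp hW hBW, fac_prod hp hK hBK, fac_lcm hp hW hBW,
      fac_lcm hp hK hBK, sum_add_distrib, sum_add_distrib]
    exact ⟨rfl, rfl⟩
  constructor
  · intro h p hp i hi
    set B := i + (W.sup fun j => (U P Q j).natAbs.factorization p) +
      (K.sup fun j => (U P Q j).natAbs.factorization p) with hBdef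
    have hBW : ∀ j ∈ W, (U P Q j).natAbs.factorization p ≤ B := fun j hj => by
      have := Finset.le_sup (f := fun j => (U P Q j).natAbs.factorization p) hj
      omega
    have hBK : ∀ j ∈ K, (U P Q j).natAbs.factorization p ≤ B := fun j hj => by
      have := Finset.le_sup (f := fun j => (U P Q j).natAbs.factorization p) hj
      omega
    obtain ⟨h1, h2⟩ := hfac p hp B hBW hBK
    rw [h, h2] at h1
    exact (Finset.sum_eq_sum_iff_of_le (fun i _ => hterm (p ^ i))).1 h1 i
      (by simp only [mem_Icc]; omega)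
  · intro h
    refine Nat.eq_of_factorization_eq (mul_ne_zero hWp hKl) (mul_ne_zero hKp hWl) fun p => ?_
    by_cases hp : p.Prime
    · set B := (W.sup fun j => (U P Q j).natAbs.factorization p) +
        (K.sup fun j => (U P Q j).natAbs.factorization p) with hBdef
      have hBW : ∀ j ∈ W, (U P Q j).natAbs.factorization p ≤ B := fun j hj => by
        have := Finset.le_sup (f := fun j => (U P Q j).natAbs.factorization p) hj
        omega
      have hBK : ∀ j ∈ K, (U P Q j).natAbs.factorization p ≤ B := fun j hj => by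
        have := Finset.le_sup (f := fun j => (U P Q j).natAbs.factorization p) hj
        omega
      obtain ⟨h1, h2⟩ := hfac p hp B hBW hBK
      rw [h1, h2]
      exact Finset.sum_congr rfl fun i hi => (h p hp i (by simp at hi; exact hi.1)).symm
    · simp [Nat.factorization_eq_zero_of_not_prime _ hp]

theorem cnt_Ioc {d r : ℕ} (hr : IsRank P Q d r) {a b : ℕ} (hab : a ≤ b) :
    cnt P Q (Ioc a b) d + a / r = b / r := by
  have h1 : ∀ S : Finset ℕ, cnt P Q S d = #{j ∈ S | r ∣ j} := by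
    intro S
    unfold cnt
    congr 1
    ext j
    simp only [mem_filter, and_congr_right_iff]
    intro _
    rw [← Int.natCast_dvd, hr.2 j]
  rw [h1]
  have h2 : #{x ∈ Ioc 0 a | r ∣ x} + #{x ∈ Ioc a b | r ∣ x} = #{x ∈ Ioc 0 b | r ∣ x} := by
    rw [← card_union_of_disjoint]
    · congr 1
      ext x; simp only [mem_union, mem_filter, mem_Ioc]; omega
    · rw [Finset.disjoint_left]; intro x; simp only [mem_filter, mem_Ioc]; omega
  rw [Nat.Ioc_filter_dvd_card_eq_div, Nat.Ioc_filter_dvd_card_eq_div] at h2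
  omega

theorem arith {n k r : ℕ} (hr : 0 < r) (hkn : k ≤ n) :
    (n / r = k / r + (n - k) / r ∧ k % r ≤ n % r) ∨
    (n / r = k / r + (n - k) / r + 1 ∧ n % r < k % r) := by
  have h1 := Nat.div_add_mod n r
  have h2 := Nat.div_add_mod k r
  have h3 := Nat.div_add_mod (n - k) r
  have l1 := Nat.mod_lt n hr
  have l2 := Nat.mod_lt k hr
  have l3 := Nat.mod_lt (n - k) hr
  have hn : n = r * (k / r + (n - k) / r) + (k % r + (n - k) % r) := by
    rw [mul_add]; omega
  by_cases hc : k % r + (n - k) % r < r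
  · left
    have e1 : n / r = k / r + (n - k) / r := by
      conv_lhs => rw [hn]
      rw [Nat.mul_add_div hr, Nat.div_eq_of_lt hc]; simp
    refine ⟨e1, ?_⟩
    have e2 : n % r = k % r + (n - k) % r := by
      conv_lhs => rw [hn]
      rw [Nat.mul_add_mod, Nat.mod_eq_of_lt hc]
    omega
  · right
    have hc' : k % r + (n - k) % r = r + (k % r + (n - k) % r - r) := by omega
    have hlt : (k % r + (n - k) % r - r) < r := by omega
    have e1 : n / r = k / r + (n - k) / r + 1 := by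
      conv_lhs => rw [hn]
      rw [Nat.mul_add_div hr, hc', Nat.add_div_left _ hr, Nat.div_eq_of_lt hlt]
    refine ⟨e1, ?_⟩
    have e2 : n % r = k % r + (n - k) % r - r := by
      conv_lhs => rw [hn]
      rw [Nat.mul_add_mod]
      conv_lhs => rw [hc']
      rw [Nat.add_mod_left, Nat.mod_eq_of_lt hlt]
    omega

theorem abs_iff_rank (h : IsCoprime P Q) (h0 : ∀ j, 0 < j → U P Q j ≠ 0) {n k : ℕ}
    (hkn : k ≤ n) :
    (∏ j ∈ Ioc (n - k) n, (U P Q j).natAbs) * ((Ioc 0 k).lcm fun j => (U P Q j).natAbs) =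
      (∏ j ∈ Ioc 0 k, (U P Q j).natAbs) * ((Ioc (n - k) n).lcm fun j => (U P Q j).natAbs) ↔
    ∀ p, p.Prime → ∀ i, 1 ≤ i → ∀ r, IsRank P Q (p ^ i) r → r ≤ k → k % r ≤ n % r := by
  have hrank : ∀ d, (∃ r, IsRank P Q d r) ∨ (∀ S : Finset ℕ, (∀ j ∈ S, 0 < j) →
      cnt P Q S d = 0) := by
    intro d
    by_cases hd : ∃ j, 0 < j ∧ (d : ℤ) ∣ U P Q j
    · obtain ⟨j, hj, hd⟩ := hd
      exact Or.inl (exists_rank h hj hd)
    · right
      intro S hS
      unfold cnt
      rw [card_eq_zero, filter_eq_empty_iff]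
      intro j hj hdj
      exact hd ⟨j, hS j hj, by rwa [Int.natCast_dvd]⟩
  have hWpos : ∀ j ∈ Ioc (n - k) n, 0 < j := fun j hj => by
    rw [mem_Ioc] at hj; omega
  have hKpos : ∀ j ∈ Ioc 0 k, 0 < j := fun j hj => by
    rw [mem_Ioc] at hj; omega
  rw [key (fun j hj => h0 j (hWpos j hj)) (fun j hj => h0 j (hKpos j hj))]
  · refine forall_congr' fun p => forall_congr' fun _ => forall_congr' fun i =>
      forall_congr' fun _ => ?_
    rcases hrank (p ^ i) with ⟨r, hr⟩ | hno
    · have c1 := cnt_Ioc hr (Nat.sub_le n k)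
      have c2 := cnt_Ioc hr (Nat.zero_le k)
      rw [Nat.zero_div, add_zero] at c2
      have ha := arith hr.1 hkn
      have hkr : 1 ≤ k / r ↔ r ≤ k := Nat.one_le_div_iff hr.1
      constructor
      · intro he s hs hsk
        obtain rfl := hr.unique hs
        have := hkr.2 hsk
        rw [c2] at he
        split_ifs at he <;> omega
      · intro hall
        have hall' := hall r hr
        rw [c2]
        by_cases hrk : r ≤ k
        · have h1 := hkr.2 hrk
          have := hall' hrk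
          rw [if_pos h1, if_pos] <;> omega
        · have h1 : k / r = 0 := Nat.div_eq_of_lt (by omega)
          split_ifs <;> omega
    · rw [hno _ hWpos, hno _ hKpos]
      simp only [true_iff]
      intro r hr hrk
      exfalso
      have := cnt_Ioc hr (Nat.zero_le k)
      rw [hno _ hKpos, Nat.zero_div] at this
      have := Nat.div_pos hrk hr.1
      omega
  · intro d
    rcases hrank d with ⟨r, hr⟩ | hno
    · have c1 := cnt_Ioc hr (Nat.sub_le n k)
      have c2 := cnt_Ioc hr (Nat.zero_le k)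
      rw [Nat.zero_div, add_zero] at c2
      rcases arith hr.1 hkn with ha | ha <;> omega
    · rw [hno _ hWpos, hno _ hKpos]

end counting

section primitive

variable {P Q : ℤ}

theorem U_dvd_U (h : IsCoprime P Q) {e d : ℕ} (hed : e ∣ d) : U P Q e ∣ U P Q d := by
  obtain ⟨t, rfl⟩ := hed
  have := (dvd_U_mul_add_iff h (dvd_refl (U P Q e)) t 0).2 (by simp [U])
  simpa using this

theorem natAbs_dvd (h : IsCoprime P Q) {e d : ℕ} (hed : e ∣ d) :
    (U P Q e).natAbs ∣ (U P Q d).natAbs := Int.natAbs_dvd_natAbs.2 (U_dvd_U h hed)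

/-- lcm of the `|U_e|` over proper divisors `e` of `d`. -/
def L (P Q : ℤ) (d : ℕ) : ℕ := d.properDivisors.lcm fun e => (U P Q e).natAbs

/-- the primitive part. -/
def G (P Q : ℤ) (d : ℕ) : ℕ := (U P Q d).natAbs / L P Q d

theorem L_dvd (h : IsCoprime P Q) (d : ℕ) : L P Q d ∣ (U P Q d).natAbs :=
  Finset.lcm_dvd fun _ he => natAbs_dvd h (Nat.mem_properDivisors.1 he).1

theorem G_mul_L (h : IsCoprime P Q) (d : ℕ) : G P Q d * L P Q d = (U P Q d).natAbs :=
  Nat.div_mul_cancel (L_dvd h d)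

theorem G_ne_zero (h : IsCoprime P Q) (h0 : ∀ j, 0 < j → U P Q j ≠ 0) {d : ℕ} (hd : 0 < d) :
    G P Q d ≠ 0 := by
  intro hG
  have := G_mul_L h d
  rw [hG, zero_mul] at this
  exact h0 d hd (Int.natAbs_eq_zero.1 this.symm)

theorem L_ne_zero (h0 : ∀ j, 0 < j → U P Q j ≠ 0) (d : ℕ) : L P Q d ≠ 0 := by
  rw [L, Ne, Finset.lcm_eq_zero_iff]
  simp only [Int.natAbs_eq_zero, not_exists, not_and]
  intro e he
  exact h0 e (Nat.pos_of_mem_properDivisors he)

open Classical in
theorem fac_G (h : IsCoprime P Q) (h0 : ∀ j, 0 < j → U P Q j ≠ 0) {d p B : ℕ} (hd : 0 < d)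
    (hp : p.Prime) (hB : (U P Q d).natAbs.factorization p ≤ B) :
    (G P Q d).factorization p = ∑ i ∈ Icc 1 B, if IsRank P Q (p ^ i) d then 1 else 0 := by
  have hne : (U P Q d).natAbs ≠ 0 := Int.natAbs_ne_zero.2 (h0 d hd)
  have h1 : (U P Q d).natAbs.factorization p =
      (G P Q d).factorization p + (L P Q d).factorization p := by
    conv_lhs => rw [← G_mul_L h d]
    rw [Nat.factorization_mul (G_ne_zero h h0 hd) (L_ne_zero h0 d), Finsupp.add_apply]
  have h2 := fac_eq_card hp hne hB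
  rw [card_filter] at h2
  have h3 : (L P Q d).factorization p = _ := fac_lcm (P := P) (Q := Q) (S := d.properDivisors) hp
    (fun j hj => h0 j (Nat.pos_of_mem_properDivisors hj))
    (B := B) (fun j hj => by
      refine le_trans ?_ hB
      have hdv := natAbs_dvd h (Nat.mem_properDivisors.1 hj).1
      exact (Nat.factorization_le_iff_dvd
        (Int.natAbs_ne_zero.2 (h0 j (Nat.pos_of_mem_properDivisors hj))) hne).2 hdv p)
  have h4 : ∀ i, (if p ^ i ∣ (U P Q d).natAbs then 1 else 0) =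
      (if IsRank P Q (p ^ i) d then 1 else 0) +
      (if 1 ≤ cnt P Q d.properDivisors (p ^ i) then 1 else 0) := by
    intro i
    have hcnt : 1 ≤ cnt P Q d.properDivisors (p ^ i) ↔
        ∃ e ∈ d.properDivisors, p ^ i ∣ (U P Q e).natAbs := by
      rw [cnt, Nat.one_le_iff_ne_zero, card_ne_zero, filter_nonempty_iff]
    by_cases hdv : p ^ i ∣ (U P Q d).natAbs
    · obtain ⟨r, hr⟩ := exists_rank h hd (Int.natCast_dvd.2 hdv)
      have hrd : r ∣ d := (hr.2 d).1 (Int.natCast_dvd.2 hdv)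
      by_cases hrd' : r = d
      · subst hrd'
        have : ¬ 1 ≤ cnt P Q r.properDivisors (p ^ i) := by
          rw [hcnt]
          rintro ⟨e, he, hde⟩
          rw [Nat.mem_properDivisors] at he
          have := (hr.2 e).1 (Int.natCast_dvd.2 hde)
          exact absurd (Nat.dvd_antisymm he.1 this) he.2.ne
        rw [if_pos hdv, if_pos hr, if_neg this]
      · have hn : ¬ IsRank P Q (p ^ i) d := fun hd' => hrd' (hr.unique hd')
        have : 1 ≤ cnt P Q d.properDivisors (p ^ i) := by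
          rw [hcnt]
          refine ⟨r, Nat.mem_properDivisors.2 ⟨hrd, lt_of_le_of_ne (Nat.le_of_dvd hd hrd) hrd'⟩,
            Int.natCast_dvd.1 ((hr.2 r).2 dvd_rfl)⟩
        rw [if_pos hdv, if_neg hn, if_pos this]
    · have hn : ¬ IsRank P Q (p ^ i) d := fun hd' =>
        hdv (Int.natCast_dvd.1 ((hd'.2 d).2 dvd_rfl))
      have : ¬ 1 ≤ cnt P Q d.properDivisors (p ^ i) := by
        rw [hcnt]
        rintro ⟨e, he, hde⟩
        exact hdv (hde.trans (natAbs_dvd h (Nat.mem_properDivisors.1 he).1))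
      rw [if_neg hdv, if_neg hn, if_neg this]
  rw [Finset.sum_congr rfl (fun i _ => h4 i), sum_add_distrib] at h2
  omega

theorem prod_G (h : IsCoprime P Q) (h0 : ∀ j, 0 < j → U P Q j ≠ 0) {n : ℕ} (hn : 0 < n) :
    ∏ d ∈ n.divisors, G P Q d = (U P Q n).natAbs := by
  classical
  have hne : (U P Q n).natAbs ≠ 0 := Int.natAbs_ne_zero.2 (h0 n hn)
  have hG : ∀ d ∈ n.divisors, G P Q d ≠ 0 := fun d hd =>
    G_ne_zero h h0 (Nat.pos_of_mem_divisors hd)
  refine Nat.eq_of_factorization_eq (Finset.prod_ne_zero_iff.2 hG) hne fun p => ?_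
  by_cases hp : p.Prime
  · obtain ⟨B, hB⟩ : ∃ B, (U P Q n).natAbs.factorization p ≤ B := ⟨_, le_rfl⟩
    rw [Nat.factorization_prod hG, Finsupp.finsetSum_apply]
    rw [Finset.sum_congr rfl (fun d hd => fac_G h h0 (Nat.pos_of_mem_divisors hd) hp (B := B)
      (((Nat.factorization_le_iff_dvd
        (Int.natAbs_ne_zero.2 (h0 d (Nat.pos_of_mem_divisors hd))) hne).2
        (natAbs_dvd h (Nat.dvd_of_mem_divisors hd)) p).trans hB))]
    rw [Finset.sum_comm, fac_eq_card hp hne hB, card_filter]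
    refine Finset.sum_congr rfl fun i _ => ?_
    by_cases hdv : p ^ i ∣ (U P Q n).natAbs
    · obtain ⟨r, hr⟩ := exists_rank h hn (Int.natCast_dvd.2 hdv)
      have hrn : r ∣ n := (hr.2 n).1 (Int.natCast_dvd.2 hdv)
      rw [if_pos hdv, Finset.sum_eq_single r]
      · rw [if_pos hr]
      · intro b _ hb
        rw [if_neg fun hb' => hb (hb'.unique hr)]
      · intro hr'
        exact absurd (Nat.mem_divisors.2 ⟨hrn, hn.ne'⟩) hr'
    · rw [if_neg hdv]
      refine Finset.sum_eq_zero fun d hd => ?_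
      rw [if_neg]
      intro hr
      exact hdv (Int.natCast_dvd.1 ((hr.2 n).2 (Nat.dvd_of_mem_divisors hd)))
  · simp [Nat.factorization_eq_zero_of_not_prime _ hp]

theorem G_ne_one_iff (h : IsCoprime P Q) (h0 : ∀ j, 0 < j → U P Q j ≠ 0) {r : ℕ} (hr : 0 < r) :
    G P Q r ≠ 1 ↔ ∃ p, p.Prime ∧ ∃ i, 1 ≤ i ∧ IsRank P Q (p ^ i) r := by
  classical
  constructor
  · intro hG
    obtain ⟨p, hp, hpd⟩ := Nat.exists_prime_and_dvd hG
    have h1 : 0 < (G P Q r).factorization p :=
      hp.factorization_pos_of_dvd (G_ne_zero h h0 hr) hpd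
    rw [fac_G h h0 hr hp le_rfl] at h1
    obtain ⟨i, hi, hi'⟩ := Finset.exists_ne_zero_of_sum_ne_zero h1.ne'
    refine ⟨p, hp, i, (mem_Icc.1 hi).1, ?_⟩
    by_contra hn
    exact hi' (if_neg hn)
  · rintro ⟨p, hp, i, hi, hrk⟩ hG
    have h1 := fac_G h h0 hr hp (B := (U P Q r).natAbs.factorization p + i) (by omega)
    rw [hG, Nat.factorization_one, Finsupp.zero_apply] at h1
    have h2 := (Finset.sum_eq_zero_iff.1 h1.symm) i (by simp; omega)
    rw [if_pos hrk] at h2
    exact one_ne_zero h2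

theorem abs_iff (h : IsCoprime P Q) (h0 : ∀ j, 0 < j → U P Q j ≠ 0) {n k : ℕ}
    (hkn : k ≤ n) :
    (∏ j ∈ Ioc (n - k) n, (U P Q j).natAbs) * ((Ioc 0 k).lcm fun j => (U P Q j).natAbs) =
      (∏ j ∈ Ioc 0 k, (U P Q j).natAbs) * ((Ioc (n - k) n).lcm fun j => (U P Q j).natAbs) ↔
    ∀ r, 2 ≤ r → r ≤ k → G P Q r ≠ 1 → k % r ≤ n % r := by
  rw [abs_iff_rank h h0 hkn]
  constructor
  · intro hall r hr2 hrk hG
    obtain ⟨p, hp, i, hi, hrank⟩ := (G_ne_one_iff h h0 (by omega)).1 hG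
    exact hall p hp i hi r hrank hrk
  · intro hall p hp i hi r hrank hrk
    by_cases hr1 : r = 1
    · subst hr1; simp [Nat.mod_one]
    · have hrpos := hrank.1
      exact hall r (by omega) hrk ((G_ne_one_iff h h0 (by omega)).2 ⟨p, hp, i, hi, hrank⟩)

end primitive

section complex

variable {P Q : ℤ} {α β : ℂ}

theorem binet (hsum : α + β = P) (hprod : α * β = Q) (n : ℕ) :
    (α - β) * (U P Q n : ℂ) = α ^ n - β ^ n := by
  induction n using Nat.strong_induction_on with
  | _ n ih =>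
    match n with
    | 0 => simp [U]
    | 1 => simp [U]
    | n + 2 =>
      have h1 := ih (n + 1) (by omega)
      have h0 := ih n (by omega)
      rw [U]
      push_cast
      rw [← hsum, ← hprod]
      have e : (α - β) * ((α + β) * (U P Q (n + 1) : ℂ) - α * β * (U P Q n : ℂ)) =
          (α + β) * ((α - β) * (U P Q (n + 1) : ℂ)) - α * β * ((α - β) * (U P Q n : ℂ)) := by ring
      rw [e, h1, h0]; ring

/-- `Φ_r(α,β)`, the homogeneous cyclotomic value. -/
noncomputable def Phi (α β : ℂ) (r : ℕ) : ℂ := ∏ ζ ∈ primitiveRoots r ℂ, (α - ζ * β)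

theorem prod_Phi (α β : ℂ) {n : ℕ} (hn : 0 < n) :
    ∏ d ∈ n.divisors, Phi α β d = α ^ n - β ^ n := by
  classical
  rw [(Complex.isPrimitiveRoot_exp n hn.ne').pow_sub_pow_eq_prod_sub_mul α β hn]
  rw [IsPrimitiveRoot.nthRoots_one_eq_biUnion_primitiveRoots, Finset.prod_biUnion]
  · rfl
  · intro a _ b _ hab
    exact IsPrimitiveRoot.disjoint hab

theorem Phi_one : Phi α β 1 = α - β := by
  simp [Phi, IsPrimitiveRoot.primitiveRoots_one]

theorem norm_Phi (h : IsCoprime P Q) (h0 : ∀ j, 0 < j → U P Q j ≠ 0)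
    (hsum : α + β = P) (hprod : α * β = Q) (hne : α ≠ β) {n : ℕ} (hn : 2 ≤ n) :
    ‖Phi α β n‖ = G P Q n := by
  -- g
  let g : ℕ → ℝ := fun d => if d = 1 then 1 else ‖Phi α β d‖
  have hg : ∀ n, 0 < n → ∏ d ∈ n.divisors, g d = ((U P Q n).natAbs : ℝ) := by
    intro n hn
    have h1 : ∏ d ∈ n.divisors, ‖Phi α β d‖ = ‖α - β‖ * ((U P Q n).natAbs : ℝ) := by
      rw [← norm_prod, prod_Phi α β hn, ← binet hsum hprod n, norm_mul, Complex.norm_intCast]
      rw [Nat.cast_natAbs, Int.cast_abs]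
    have h2 : ∏ d ∈ n.divisors, ‖Phi α β d‖ = ‖α - β‖ * ∏ d ∈ n.divisors, g d := by
      have hmem : 1 ∈ n.divisors := Nat.one_mem_divisors.2 hn.ne'
      rw [← Finset.mul_prod_erase _ _ hmem, ← Finset.mul_prod_erase _ g hmem]
      simp only [g, if_true, one_mul, Phi_one]
      congr 1
      refine Finset.prod_congr rfl fun d hd => ?_
      rw [if_neg (Finset.ne_of_mem_erase hd)]
    have h3 : ‖α - β‖ ≠ 0 := norm_ne_zero_iff.2 (sub_ne_zero.2 hne)
    exact mul_left_cancel₀ h3 (h2.symm.trans h1)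
  have hG : ∀ n, 0 < n → ∏ d ∈ n.divisors, (G P Q d : ℝ) = ((U P Q n).natAbs : ℝ) := by
    intro n hn
    rw [← prod_G h h0 hn]; push_cast; rfl
  have key : ∀ n, 0 < n → g n = G P Q n := by
    intro n
    induction n using Nat.strong_induction_on with
    | _ n ih =>
      intro hn
      have e1 := hg n hn
      have e2 := hG n hn
      rw [← Nat.cons_self_properDivisors hn.ne', Finset.prod_cons] at e1 e2
      have e3 : ∏ d ∈ n.properDivisors, g d = ∏ d ∈ n.properDivisors, (G P Q d : ℝ) :=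
        Finset.prod_congr rfl fun d hd =>
          ih d (Nat.mem_properDivisors.1 hd).2 (Nat.pos_of_mem_properDivisors hd)
      rw [e3] at e1
      have e4 : ∏ d ∈ n.properDivisors, (G P Q d : ℝ) ≠ 0 :=
        Finset.prod_ne_zero_iff.2 fun d hd =>
          Nat.cast_ne_zero.2 (G_ne_zero h h0 (Nat.pos_of_mem_properDivisors hd))
      exact mul_right_cancel₀ e4 (e1.trans e2.symm)
  have := key n (by omega)
  simp only [g] at this
  rwa [if_neg (by omega)] at this

theorem U_ne_zero (hQ : Q ≠ 0) (hsum : α + β = P) (hprod : α * β = Q)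
    (hroot : ∀ m : ℕ, 0 < m → (α / β) ^ m ≠ 1) (j : ℕ) (hj : 0 < j) : U P Q j ≠ 0 := by
  intro h
  have hb := binet hsum hprod j
  have hβ : β ≠ 0 := by
    rintro rfl
    rw [mul_zero] at hprod
    exact hQ (by exact_mod_cast hprod.symm)
  rw [h, Int.cast_zero, mul_zero] at hb
  apply hroot j hj
  rw [div_pow, div_eq_one_iff_eq (pow_ne_zero _ hβ)]
  exact (sub_eq_zero.1 hb.symm)

/-- For a positive discriminant, every factor of `Φ_r(α,β)`, `r ≥ 3`, has modulus `> 1`. -/
theorem one_lt_norm_factor (hP : P ≠ 0) (hQ : Q ≠ 0) (hD : 0 < P ^ 2 - 4 * Q)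
    (hsum : α + β = P) (hprod : α * β = Q) {r : ℕ} (hr : 3 ≤ r) {ζ : ℂ}
    (hζ : IsPrimitiveRoot ζ r) : 1 < ‖α - ζ * β‖ := by
  -- α, β are real
  have hdiff : (α - β) ^ 2 = ((P ^ 2 - 4 * Q : ℤ) : ℂ) := by
    push_cast; rw [← hsum, ← hprod]; ring
  have him : (α - β).im = 0 := by
    set w := α - β with hw
    have h1 : w.re * w.re - w.im * w.im = ((P ^ 2 - 4 * Q : ℤ) : ℝ) := by
      have := congrArg Complex.re hdiff
      rw [pow_two, Complex.mul_re] at this
      rw [this]; exact Complex.intCast_re _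
    have h2 : w.re * w.im + w.im * w.re = 0 := by
      have := congrArg Complex.im hdiff
      rw [pow_two, Complex.mul_im] at this
      rw [this]; exact Complex.intCast_im _
    have h3 : w.re * w.im = 0 := by linarith
    rcases mul_eq_zero.1 h3 with h4 | h4
    · rw [h4] at h1
      have h5 : (0 : ℝ) < ((P ^ 2 - 4 * Q : ℤ) : ℝ) := by exact_mod_cast hD
      nlinarith [mul_self_nonneg w.im]
    · exact h4
  have hsim : (α + β).im = 0 := by rw [hsum]; exact Complex.intCast_im _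
  rw [Complex.sub_im] at him
  rw [Complex.add_im] at hsim
  have hαi : α.im = 0 := by linarith
  have hβi : β.im = 0 := by linarith
  have hsr : α.re + β.re = P := by
    have := congrArg Complex.re hsum
    simpa using this
  have hpr : α.re * β.re = Q := by
    have := congrArg Complex.re hprod
    rw [Complex.mul_re, hαi, hβi] at this
    simpa using this
  have hζn : ‖ζ‖ = 1 := hζ.norm'_eq_one (by omega)
  have hζ2 : ζ.re ^ 2 + ζ.im ^ 2 = 1 := by
    have := Complex.sq_norm ζ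
    rw [hζn, Complex.normSq_apply] at this
    nlinarith
  have hζim : ζ.im ≠ 0 := by
    intro hi
    have hre : ζ.re ^ 2 = 1 := by rw [hi] at hζ2; linarith
    have hζsq : ζ ^ 2 = 1 := by
      apply Complex.ext
      · rw [pow_two, Complex.mul_re, hi]; simp; nlinarith
      · rw [pow_two, Complex.mul_im, hi]; simp
    have := hζ.dvd_of_pow_eq_one 2 hζsq
    have := Nat.le_of_dvd (by norm_num) this
    omega
  have him2 : 0 < ζ.im ^ 2 := by positivity
  have hlt1 : ζ.re < 1 := by nlinarith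
  have hlt2 : -1 < ζ.re := by nlinarith
  have hnorm : ‖α - ζ * β‖ ^ 2 = (P : ℝ) ^ 2 - 2 * Q * (1 + ζ.re) := by
    rw [Complex.sq_norm, Complex.normSq_apply]
    simp only [Complex.sub_re, Complex.mul_re, Complex.sub_im, Complex.mul_im, hαi, hβi]
    rw [← hsr, ← hpr]
    have : ζ.im ^ 2 = 1 - ζ.re ^ 2 := by linarith
    ring_nf
    rw [this]; ring
  have hgt : 1 < ‖α - ζ * β‖ ^ 2 := by
    rw [hnorm]
    have hP2 : (1 : ℝ) ≤ (P : ℝ) ^ 2 := by
      have : 1 ≤ P ^ 2 := by
        have := Int.one_le_abs hP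
        rw [← sq_abs]; nlinarith
      exact_mod_cast this
    have hDr : (P : ℝ) ^ 2 - 4 * Q ≥ 1 := by
      have : 1 ≤ P ^ 2 - 4 * Q := hD
      exact_mod_cast this
    rcases lt_or_gt_of_ne hQ with hneg | hpos
    · have hq : (Q : ℝ) ≤ -1 := by exact_mod_cast Int.le_sub_one_of_lt hneg
      nlinarith
    · have hq : (1 : ℝ) ≤ (Q : ℝ) := by exact_mod_cast hpos
      nlinarith
  nlinarith [norm_nonneg (α - ζ * β)]

theorem one_lt_norm_Phi (hP : P ≠ 0) (hQ : Q ≠ 0) (hD : 0 < P ^ 2 - 4 * Q)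
    (hsum : α + β = P) (hprod : α * β = Q) {r : ℕ} (hr : 3 ≤ r) : 1 < ‖Phi α β r‖ := by
  have hne : (primitiveRoots r ℂ).Nonempty :=
    ⟨_, (mem_primitiveRoots (by omega)).2 (Complex.isPrimitiveRoot_exp r (by omega))⟩
  rw [Phi, norm_prod]
  have h1 : ∀ ζ ∈ primitiveRoots r ℂ, 1 < ‖α - ζ * β‖ := fun ζ hζ =>
    one_lt_norm_factor hP hQ hD hsum hprod hr ((mem_primitiveRoots (by omega)).1 hζ)
  calc (1 : ℝ) = ∏ _ζ ∈ primitiveRoots r ℂ, (1 : ℝ) := by simp
    _ < ∏ ζ ∈ primitiveRoots r ℂ, ‖α - ζ * β‖ :=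
        Finset.prod_lt_prod_of_nonempty (fun _ _ => one_pos) h1 hne

theorem norm_Phi_two (hsum : α + β = P) : ‖Phi α β 2‖ = |(P : ℝ)| := by
  have h2 : primitiveRoots 2 ℂ = {-1} := by
    ext ζ
    rw [mem_primitiveRoots two_pos, Finset.mem_singleton]
    constructor
    · intro h; exact h.eq_neg_one_of_two_right
    · rintro rfl
      exact IsPrimitiveRoot.neg_one 0 (by norm_num)
  have : Phi α β 2 = α + β := by
    simp [Phi, h2]
  rw [this, hsum, Complex.norm_intCast]

end complex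

section sign

variable {P Q : ℤ}

theorem U_pos (hP : 0 < P) (hD : 0 < P ^ 2 - 4 * Q) (j : ℕ) :
    0 < U P Q (j + 1) ∧ 0 ≤ U P Q j ∧ P * U P Q j < 2 * U P Q (j + 1) := by
  induction j with
  | zero => simp [U]
  | succ j ih =>
    obtain ⟨h1, h2, h3⟩ := ih
    have e : U P Q (j + 1 + 1) = P * U P Q (j + 1) - Q * U P Q j := by rw [U]
    have h4 : P * U P Q (j + 1) < 2 * U P Q (j + 1 + 1) := by
      rw [e]
      rcases le_or_gt Q 0 with hQ | hQ
      · have : 0 < P * U P Q (j + 1) := mul_pos hP h1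
        have : Q * U P Q j ≤ 0 := mul_nonpos_of_nonpos_of_nonneg hQ h2
        linarith
      · have a1 : P * (P * U P Q j) < P * (2 * U P Q (j + 1)) := mul_lt_mul_of_pos_left h3 hP
        have a2 : 0 ≤ (P ^ 2 - 4 * Q) * U P Q j := mul_nonneg hD.le h2
        nlinarith
    refine ⟨?_, h1.le, h4⟩
    have : 0 < P * U P Q (j + 1) := mul_pos hP h1
    linarith

theorem U_neg (P Q : ℤ) (j : ℕ) : U (-P) Q j = (-1) ^ (j + 1) * U P Q j := by
  induction j using Nat.strong_induction_on with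
  | _ j ih =>
    match j with
    | 0 => simp [U]
    | 1 => simp [U]
    | j + 2 =>
      rw [U, U, ih (j + 1) (by omega), ih j (by omega)]
      ring

theorem sign_iff (hP : P ≠ 0) (hD : 0 < P ^ 2 - 4 * Q) {n k : ℕ} (hkn : k ≤ n) :
    0 < (∏ i ∈ range k, U P Q (n - i)) * ∏ i ∈ range k, U P Q (i + 1) ↔
      (0 < P ∨ Even k ∨ Odd n) := by
  rw [← Finset.prod_mul_distrib]
  rcases lt_or_gt_of_ne hP with hneg | hpos
  · have hP' : 0 < -P := by linarith
    have hD' : 0 < (-P) ^ 2 - 4 * Q := by rw [neg_sq]; exact hD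
    have e1 : ∀ i ∈ range k, U P Q (n - i) * U P Q (i + 1) =
        (-1) ^ (n + 1) * (U (-P) Q (n - i) * U (-P) Q (i + 1)) := by
      intro i hi
      rw [mem_range] at hi
      have a1 := U_neg (-P) Q (n - i)
      have a2 := U_neg (-P) Q (i + 1)
      rw [neg_neg] at a1 a2
      rw [a1, a2]
      have : n - i + 1 + (i + 1 + 1) = (n + 1) + 2 := by omega
      calc _ = (-1) ^ (n - i + 1 + (i + 1 + 1)) * (U (-P) Q (n - i) * U (-P) Q (i + 1)) := by
              rw [pow_add]; ring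
        _ = _ := by rw [this, pow_add]; ring
    rw [Finset.prod_congr rfl e1, Finset.prod_mul_distrib, Finset.prod_const, card_range]
    have hpos : 0 < ∏ i ∈ range k, (U (-P) Q (n - i) * U (-P) Q (i + 1)) := by
      refine Finset.prod_pos fun i hi => ?_
      rw [mem_range] at hi
      have b1 := (U_pos hP' hD' (n - i - 1)).1
      rw [show n - i - 1 + 1 = n - i by omega] at b1
      exact mul_pos b1 (U_pos hP' hD' i).1
    rw [mul_pos_iff_of_pos_right hpos, ← pow_mul]
    have c1 : (0 < (-1 : ℤ) ^ ((n + 1) * k)) ↔ Even ((n + 1) * k) := by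
      constructor
      · intro h
        by_contra hne
        rw [Nat.not_even_iff_odd] at hne
        rw [hne.neg_one_pow] at h
        norm_num at h
      · intro h
        rw [h.neg_one_pow]; norm_num
    rw [c1, Nat.even_mul, Nat.even_add_one, Nat.not_even_iff_odd]
    constructor
    · rintro (h | h)
      · exact Or.inr (Or.inr h)
      · exact Or.inr (Or.inl h)
    · rintro (h | h | h)
      · exact absurd h (by linarith)
      · exact Or.inr h
      · exact Or.inl h
  · have hpos' : 0 < ∏ i ∈ range k, (U P Q (n - i) * U P Q (i + 1)) := by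
      refine Finset.prod_pos fun i hi => ?_
      rw [mem_range] at hi
      have b1 := (U_pos hpos hD (n - i - 1)).1
      rw [show n - i - 1 + 1 = n - i by omega] at b1
      exact mul_pos b1 (U_pos hpos hD i).1
    exact iff_of_true hpos' (Or.inl hpos)

theorem range_window {n k : ℕ} (hkn : k ≤ n) :
    (range k).image (fun i => n - i) = Ioc (n - k) n := by
  ext j
  simp only [mem_image, mem_range, mem_Ioc]
  constructor
  · rintro ⟨i, hi, rfl⟩; omega
  · rintro ⟨h1, h2⟩; exact ⟨n - j, by omega, by omega⟩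

theorem range_initial (k : ℕ) : (range k).image (fun i => i + 1) = Ioc 0 k := by
  ext j
  simp only [mem_image, mem_range, mem_Ioc]
  constructor
  · rintro ⟨i, hi, rfl⟩; omega
  · rintro ⟨h1, h2⟩; exact ⟨j - 1, by omega, by omega⟩

theorem eq_iff_abs (h0 : ∀ j, 0 < j → U P Q j ≠ 0) {n k : ℕ} (hkn : k ≤ n) :
    lcmBinom P Q n k = binom P Q n k ↔
    0 < (∏ i ∈ range k, U P Q (n - i)) * (∏ i ∈ range k, U P Q (i + 1)) ∧
    (∏ j ∈ Ioc (n - k) n, (U P Q j).natAbs) * ((Ioc 0 k).lcm fun j => (U P Q j).natAbs) =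
      (∏ j ∈ Ioc 0 k, (U P Q j).natAbs) *
        ((Ioc (n - k) n).lcm fun j => (U P Q j).natAbs) := by
  have hinjW : Set.InjOn (fun i => n - i) (range k : Finset ℕ) := by
    intro a ha b hb hab
    simp only [coe_range, Set.mem_Iio] at ha hb hab
    omega
  have hinjK : Set.InjOn (fun i => i + 1) (range k : Finset ℕ) := by
    intro a _ b _ hab
    simpa using hab
  have eA : (∏ j ∈ Ioc (n - k) n, (U P Q j).natAbs) = (∏ i ∈ range k, U P Q (n - i)).natAbs := by
    rw [← range_window hkn, Finset.prod_image hinjW]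
    exact (map_prod Int.natAbsHom _ _).symm
  have eB : (∏ j ∈ Ioc 0 k, (U P Q j).natAbs) = (∏ i ∈ range k, U P Q (i + 1)).natAbs := by
    rw [← range_initial k, Finset.prod_image hinjK]
    exact (map_prod Int.natAbsHom _ _).symm
  have eL1 : ((Ioc (n - k) n).lcm fun j => (U P Q j).natAbs) =
      (range k).lcm fun i => (U P Q (n - i)).natAbs := by
    rw [← range_window hkn, Finset.lcm_image]; rfl
  have eL2 : ((Ioc 0 k).lcm fun j => (U P Q j).natAbs) =
      (range k).lcm fun i => (U P Q (i + 1)).natAbs := by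
    rw [← range_initial k, Finset.lcm_image]; rfl
  rw [eA, eB, eL1, eL2]
  unfold lcmBinom binom
  have hA0 : (∏ i ∈ range k, U P Q (n - i)) ≠ 0 := by
    refine Finset.prod_ne_zero_iff.2 fun i hi => h0 _ ?_
    rw [mem_range] at hi; omega
  have hB0 : (∏ i ∈ range k, U P Q (i + 1)) ≠ 0 :=
    Finset.prod_ne_zero_iff.2 fun i _ => h0 _ (Nat.succ_pos i)
  have hL1 : ((range k).lcm fun i => (U P Q (n - i)).natAbs) ≠ 0 := by
    rw [Ne, Finset.lcm_eq_zero_iff]
    simp only [Int.natAbs_eq_zero, not_exists, not_and]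
    intro i hi
    rw [mem_range] at hi
    exact h0 _ (by omega)
  have hL2 : ((range k).lcm fun i => (U P Q (i + 1)).natAbs) ≠ 0 := by
    rw [Ne, Finset.lcm_eq_zero_iff]
    simp only [Int.natAbs_eq_zero, not_exists, not_and]
    intro i _
    exact h0 _ (Nat.succ_pos i)
  rw [← Int.cast_prod, ← Int.cast_prod]
  generalize (∏ i ∈ range k, U P Q (n - i)) = A at *
  generalize (∏ i ∈ range k, U P Q (i + 1)) = B at *
  generalize ((range k).lcm fun i => (U P Q (n - i)).natAbs) = L1 at *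
  generalize ((range k).lcm fun i => (U P Q (i + 1)).natAbs) = L2 at *
  have hB0' : (B : ℚ) ≠ 0 := by exact_mod_cast hB0
  have hL2' : (L2 : ℚ) ≠ 0 := by exact_mod_cast hL2
  rw [div_eq_div_iff hL2' hB0']
  have hcast : ((L1 : ℚ) * B = A * L2) ↔ ((L1 : ℤ) * B = A * L2) := by
    constructor
    · intro h; exact_mod_cast h
    · intro h; exact_mod_cast h
  rw [hcast]
  have hL1p : (0 : ℤ) < L1 := by exact_mod_cast Nat.pos_of_ne_zero hL1
  have hL2p : (0 : ℤ) < L2 := by exact_mod_cast Nat.pos_of_ne_zero hL2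
  constructor
  · intro h
    constructor
    · have h1 : A * B * L2 = L1 * (B * B) := by
        calc A * B * L2 = (A * L2) * B := by ring
          _ = (L1 * B) * B := by rw [h]
          _ = L1 * (B * B) := by ring
      have h2 : 0 < A * B * L2 := by
        rw [h1]; exact mul_pos hL1p (mul_self_pos.2 hB0)
      by_contra hneg
      have : A * B * L2 ≤ 0 := mul_nonpos_of_nonpos_of_nonneg (not_lt.1 hneg) hL2p.le
      linarith
    · have := congrArg Int.natAbs h
      rw [Int.natAbs_mul, Int.natAbs_mul, Int.natAbs_natCast, Int.natAbs_natCast] at this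
      rw [mul_comm B.natAbs]
      exact this.symm
  · rintro ⟨h1, h2⟩
    have h3 : (A.natAbs : ℤ) * L2 = B.natAbs * L1 := by exact_mod_cast h2
    rcases mul_pos_iff.1 h1 with ⟨ha, hb⟩ | ⟨ha, hb⟩
    · rw [Int.natAbs_of_nonneg ha.le, Int.natAbs_of_nonneg hb.le] at h3
      linarith
    · rw [Int.ofNat_natAbs_of_nonpos ha.le, Int.ofNat_natAbs_of_nonpos hb.le] at h3
      linarith

end sign

/-- **Main theorem.**  `P, Q` are nonzero coprime integers and `α, β` are the roots of
`x ^ 2 - P x + Q`, with `α / β` not a root of unity.  For `1 ≤ k ≤ n` the lcm-quotient equals the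
`U`-binomial coefficient iff the two products of Lucas numbers have the same sign and
`k mod r ≤ n mod r` for every `2 ≤ r ≤ k` with `Φ_r(α,β) ≠ ±1` (the homogeneous cyclotomic value
`Φ_r(α,β) = ∏ (α - ζ β)`, `ζ` over the primitive `r`-th roots of unity, is a rational integer).
Second part: `Φ_r(α,β) = ±1` can be read off the Lucas sequence.  Third part: for a positive
discriminant both conditions are explicit. -/
theorem result (P Q : ℤ) (hP : P ≠ 0) (hQ : Q ≠ 0) (hPQ : IsCoprime P Q)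
    (α β : ℂ) (hsum : α + β = P) (hprod : α * β = Q)
    (hroot : ∀ m : ℕ, 0 < m → (α / β) ^ m ≠ 1)
    (n k : ℕ) (_hk : 1 ≤ k) (hkn : k ≤ n) :
    (lcmBinom P Q n k = binom P Q n k ↔
      0 < (∏ i ∈ range k, U P Q (n - i)) * (∏ i ∈ range k, U P Q (i + 1)) ∧
      ∀ r, 2 ≤ r → r ≤ k → ‖∏ ζ ∈ primitiveRoots r ℂ, (α - ζ * β)‖ ≠ 1 → k % r ≤ n % r) ∧
    (∀ r, 2 ≤ r → (‖∏ ζ ∈ primitiveRoots r ℂ, (α - ζ * β)‖ = 1 ↔
      (U P Q r).natAbs = r.properDivisors.lcm fun d => (U P Q d).natAbs)) ∧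
    (0 < P ^ 2 - 4 * Q →
      (lcmBinom P Q n k = binom P Q n k ↔
        (0 < P ∨ Even k ∨ Odd n) ∧
        ∀ r, 2 ≤ r → r ≤ k → ¬ (r = 2 ∧ |P| = 1) → k % r ≤ n % r)) := by
  have h0 := U_ne_zero hQ hsum hprod hroot
  have hβ : β ≠ 0 := by
    rintro rfl
    rw [mul_zero] at hprod
    exact hQ (by exact_mod_cast hprod.symm)
  have hne : α ≠ β := by
    rintro rfl
    exact hroot 1 one_pos (by rw [div_self hβ, one_pow])
  have hΦ : ∀ r, 2 ≤ r → ‖∏ ζ ∈ primitiveRoots r ℂ, (α - ζ * β)‖ = G P Q r :=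
    fun r hr => norm_Phi hPQ h0 hsum hprod hne hr
  have hΦ1 : ∀ r, 2 ≤ r → (‖∏ ζ ∈ primitiveRoots r ℂ, (α - ζ * β)‖ = 1 ↔ G P Q r = 1) := by
    intro r hr
    rw [hΦ r hr]; exact Nat.cast_eq_one
  have main : (lcmBinom P Q n k = binom P Q n k ↔
      0 < (∏ i ∈ range k, U P Q (n - i)) * (∏ i ∈ range k, U P Q (i + 1)) ∧
      ∀ r, 2 ≤ r → r ≤ k → ‖∏ ζ ∈ primitiveRoots r ℂ, (α - ζ * β)‖ ≠ 1 → k % r ≤ n % r) := by
    rw [eq_iff_abs h0 hkn, abs_iff hPQ h0 hkn]
    refine and_congr_right fun _ => forall_congr' fun r => forall_congr' fun hr =>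
      forall_congr' fun _ => ?_
    rw [ne_eq, ne_eq, hΦ1 r hr]
  refine ⟨main, ?_, ?_⟩
  · intro r hr
    rw [hΦ1 r hr]
    have e := G_mul_L hPQ r
    constructor
    · intro h
      rw [h, one_mul] at e
      exact e.symm
    · intro h
      have hL := L_ne_zero (P := P) (Q := Q) h0 r
      change (U P Q r).natAbs = L P Q r at h
      rw [h] at e
      exact mul_right_cancel₀ hL (by rw [e, one_mul])
  · intro hD
    rw [main, sign_iff hP hD hkn]
    refine and_congr_right fun _ => forall_congr' fun r => forall_congr' fun hr =>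
      forall_congr' fun _ => ?_
    have : ‖∏ ζ ∈ primitiveRoots r ℂ, (α - ζ * β)‖ ≠ 1 ↔ ¬ (r = 2 ∧ |P| = 1) := by
      by_cases hr2 : r = 2
      · subst hr2
        have h2 := norm_Phi_two (α := α) (β := β) hsum
        rw [Phi] at h2
        rw [h2]
        simp only [true_and, Ne]
        rw [not_iff_not]
        constructor
        · intro h; exact_mod_cast h
        · intro h; exact_mod_cast h
      · have h3 := one_lt_norm_Phi hP hQ hD hsum hprod (r := r) (by omega)
        rw [Phi] at h3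
        exact iff_of_true h3.ne' (fun h => hr2 h.1)
    rw [this]

end Pool.Agent.Results.MP_763eff_nt.LcmBinom
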